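import Pool.Agent.H6.Dowl

namespace Pool.Agent.Results.MP_f51a11_co.NotDowling

/-- `v` and `w` represent one simple rank-`n` matroid on `Fin m` over `GF(p)` and `GF(q)`. -/
def IsRep (p q n m : ℕ) (v : Fin m → (Fin n → ZMod p)) (w : Fin m → (Fin n → ZMod q)) : Prop :=
  (∀ S : Finset (Fin m), LinearIndependent (ZMod p) (fun x : S => v x) ↔
    LinearIndependent (ZMod q) (fun x : S => w x)) ∧
  (∀ S : Finset (Fin m), S.card ≤ 2 → LinearIndependent (ZMod p) (fun x : S => v x)) ∧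
  Submodule.span (ZMod p) (Set.range v) = ⊤

/-- The size function `h(L(p) ∩ L(q); n)`. -/
noncomputable def h (p q n : ℕ) : ℕ := sSup {m | ∃ v w, IsRep p q n m v w}

/-- The points of the Dowling matroid `Q_n(C_g)`. -/
abbrev Pt (p g n : ℕ) : Type :=
  Fin n ⊕ {t : Fin n × Fin n × ZMod p // t.1 < t.2.1 ∧ t.2.2 ^ g = 1}

/-- `Q_n(C_g)` over `GF(p)`: the vectors `e_i` and `e_i - ω e_j` with `i < j`, `ω ^ g = 1`. -/
def dowling (p g n : ℕ) : Pt p g n → (Fin n → ZMod p)
  | Sum.inl i => Pi.single i 1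
  | Sum.inr t => Pi.single t.1.1 1 - Pi.single t.1.2.1 t.1.2.2

/-- The assertion of Q2. -/
def Q2 : Prop :=
  ∀ p q : ℕ, p.Prime → q.Prime → p ≠ q → ∃ N, ∀ n ≥ N, ∀ v w, IsRep p q n (h p q n) v w →
    ∃ e : Fin (h p q n) ≃ Pt p (Nat.gcd (p - 1) (q - 1)) n, ∀ S : Finset (Fin (h p q n)),
      LinearIndependent (ZMod p) (fun x : S => v x) ↔
        LinearIndependent (ZMod p) (fun x : S => dowling p _ n (e x))

open Pool.Agent.H6.Dowl in
theorem result : (∀ n ≥ 1, n ^ 2 + 2 * (n - 1) ≤ h 5 7 n) ∧ ¬ Q2 := by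
  classical
  have hb : ∀ n, BddAbove {m | ∃ v w, IsRep 5 7 n m v w} := by
    intro n
    refine ⟨Fintype.card (Fin n → ZMod 5), ?_⟩
    rintro m ⟨v, w, -, h2, -⟩
    have : Function.Injective v := by
      intro a b hab
      have := (h2 {a, b} Finset.card_le_two).injective
        (a₁ := ⟨a, by simp⟩) (a₂ := ⟨b, by simp⟩) hab
      exact congrArg Subtype.val this
    simpa using Fintype.card_le_of_injective v this
  have hm : ∀ k, (k + 1) ^ 2 + 2 * k ∈ {m | ∃ v w, IsRep 5 7 (k + 1) m v w} := by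
    intro k
    have e : Fin ((k + 1) ^ 2 + 2 * k) ≃ (Fin (k + 1) × Fin (k + 1)) ⊕ (Fin k × Bool) :=
      Fintype.equivOfCardEq (by simp; ring)
    refine ⟨fun x => vec (ZMod 5) (data k (e x)), fun x => vec (ZMod 7) (data k (e x)),
      fun S => ⟨?_, ?_⟩, fun S hS => ?_, ?_⟩
    · exact indep_transfer t57 (fun x : S => data k (e x)) fun _ => data_good k _
    · exact indep_transfer t75 (fun x : S => data k (e x)) fun _ => data_good k _
    · exact simple (fun x : S => data k (e x)) (fun _ => data_good k _)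
        ((data_inj k).comp (e.injective.comp Subtype.val_injective)) (by simpa using hS)
    · rw [← span_top k]
      exact congrArg _ (e.surjective.range_comp fun x => vec (ZMod 5) (data k x))
  have h1 : ∀ k, (k + 1) ^ 2 + 2 * k ≤ h 5 7 (k + 1) := fun k => le_csSup (hb _) (hm k)
  refine ⟨fun n hn => ?_, fun hQ => ?_⟩
  · obtain ⟨k, rfl⟩ : ∃ k, n = k + 1 := ⟨n - 1, by omega⟩
    exact h1 k
  · obtain ⟨N, hN⟩ := hQ 5 7 (by norm_num) (by norm_num) (by norm_num)
    obtain ⟨v, w, hvw⟩ := Nat.sSup_mem ⟨_, hm (N + 1)⟩ (hb _)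
    obtain ⟨e, -⟩ := hN (N + 1 + 1) (by omega) v w hvw
    have hw : ∀ x : ZMod 5, x ^ Nat.gcd (5 - 1) (7 - 1) = 1 → x = 1 ∨ x = 4 := by decide
    let f : Pt 5 (Nat.gcd (5 - 1) (7 - 1)) (N + 1 + 1) → Fin (N + 1 + 1) × Fin (N + 1 + 1) :=
      Sum.elim (fun i => (i, i)) fun t => if t.1.2.2 = 1 then (t.1.1, t.1.2.1) else (t.1.2.1, t.1.1)
    have hf : Function.Injective f := by
      rintro (i | ⟨⟨i, j, a⟩, h1, h2⟩) (i' | ⟨⟨i', j', a'⟩, h1', h2'⟩) hx <;>
        simp only [f, Sum.elim_inl, Sum.elim_inr] at hx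
      · rw [(Prod.mk.inj hx).1]
      · exfalso
        split_ifs at hx <;> simp only [Prod.mk.injEq] at hx h1' <;> omega
      · exfalso
        split_ifs at hx <;> simp only [Prod.mk.injEq] at hx h1 <;> omega
      · simp only [Sum.inr.injEq, Subtype.mk.injEq, Prod.mk.injEq]
        have := hw a h2
        have := hw a' h2'
        split_ifs at hx <;> simp only [Prod.mk.injEq] at hx h1 h1'
        · exact ⟨hx.1, hx.2, by simp_all⟩
        · omega
        · omega
        · exact ⟨hx.2, hx.1, by simp_all⟩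
    have c1 := Fintype.card_le_of_injective _ (hf.comp e.injective)
    have c2 := h1 (N + 1)
    simp only [Fintype.card_fin, Fintype.card_prod] at c1
    nlinarith

end Pool.Agent.Results.MP_f51a11_co.NotDowling
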